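import Pool.Agent.Helper14.W3.StB

/-!
# Project W3, module B3b: level 9
-/

set_option autoImplicit false

namespace Pool.Agent.Helper90.W3

open Pool.Agent.Helper14.CV Pool.Agent.Helper14.W3

/-- Descent: a homogeneous even potential invariant under the parabolic generators at the cusps
`∞`, `0`, `1/3` and with equal values at these cusps is constant. -/
private theorem descent (K : ℤ → ℤ → ℂ) (κ : ℂ) (hH : Homog K)
    (h1 : ∀ p q : ℤ, (p ≠ 0 ∨ q ≠ 0) → K (p + q) q = K p q)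
    (h2 : ∀ p q : ℤ, (p ≠ 0 ∨ q ≠ 0) → K p (9 * p + q) = K p q)
    (h3 : ∀ p q : ℤ, (p ≠ 0 ∨ q ≠ 0) → K (-2 * p + q) (-9 * p + 4 * q) = K p q)
    (h4 : ∀ p q : ℤ, (p ≠ 0 ∨ q ≠ 0) → K (-p) q = K p q)
    (k1 : K 1 0 = κ) (k2 : K 0 1 = κ) (k3 : K 1 3 = κ) :
    ∀ N : ℕ, ∀ p q : ℤ, q.natAbs ≤ N → (p ≠ 0 ∨ q ≠ 0) → K p q = κ := by
  have hT : ∀ (k : ℕ) (p q : ℤ), (p ≠ 0 ∨ q ≠ 0) → q ≠ 0 → K (p + k * q) q = K p q := by
    intro k
    induction k with
    | zero => intro p q _ _; simp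
    | succ k ih =>
      intro p q hpq hq
      have e : p + ((k + 1 : ℕ) : ℤ) * q = (p + k * q) + q := by push_cast; ring
      rw [e, h1 _ _ (Or.inr hq), ih p q hpq hq]
  have hneg : ∀ p q : ℤ, (p ≠ 0 ∨ q ≠ 0) → K (-p) (-q) = K p q := by
    intro p q hpq
    have := hH (-1) p q (by norm_num) hpq
    simpa using this
  have h2' : ∀ p q : ℤ, (p ≠ 0 ∨ q ≠ 0) → K p (q - 9 * p) = K p q := by
    intro p q hpq
    have := h2 p (q - 9 * p) (by omega)
    rw [add_sub_cancel] at this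
    exact this.symm
  have h3' : ∀ p q : ℤ, (p ≠ 0 ∨ q ≠ 0) → K (4 * p - q) (9 * p - 2 * q) = K p q := by
    intro p q hpq
    have := h3 (4 * p - q) (9 * p - 2 * q) (by omega)
    have e1 : -2 * (4 * p - q) + (9 * p - 2 * q) = p := by ring
    have e2 : -9 * (4 * p - q) + 4 * (9 * p - 2 * q) = q := by ring
    rw [e1, e2] at this
    exact this.symm
  intro N
  induction N with
  | zero =>
    intro p q h hpq
    have hq : q = 0 := by omega
    subst hq
    have hp : p ≠ 0 := by omega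
    have := hH p 1 0 hp (Or.inl one_ne_zero)
    rw [mul_zero, mul_one] at this
    rw [this, k1]
  | succ N ih =>
    -- the reduced case
    have hred : ∀ r q : ℤ, 0 < q → 0 ≤ r → 2 * r ≤ q → q.natAbs ≤ N + 1 → K r q = κ := by
      intro r q hq hr hrq hN
      by_cases hr0 : r = 0
      · subst hr0
        have := hH q 0 1 (by omega) (Or.inr one_ne_zero)
        rw [mul_zero, mul_one] at this
        rw [this, k2]
      rcases lt_trichotomy (3 * r) q with hlt | heq | hgt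
      · by_cases h9 : 9 * r < 2 * q
        · rw [← h2' r q (by omega)]
          exact ih _ _ (by omega) (by omega)
        · rw [← h3' r q (by omega)]
          exact ih _ _ (by omega) (by omega)
      · have := hH r 1 3 hr0 (Or.inl one_ne_zero)
        rw [mul_one, mul_comm r 3, heq] at this
        rw [this, k3]
      · rw [← h3 r q (by omega)]
        exact ih _ _ (by omega) (by omega)
    -- positive denominators
    have hpos : ∀ p q : ℤ, 0 < q → 0 ≤ p → q.natAbs ≤ N + 1 → K p q = κ := by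
      intro p q hq hp hN
      have hm0 : 0 ≤ p % q := Int.emod_nonneg p (by omega)
      have hm1 : p % q < q := Int.emod_lt_of_pos p hq
      have hd0 : 0 ≤ p / q := Int.ediv_nonneg hp hq.le
      have e : K p q = K (p % q) q := by
        have := hT (p / q).toNat (p % q) q (by omega) (by omega)
        rw [Int.toNat_of_nonneg hd0] at this
        have e2 : p % q + p / q * q = p := by
          have := Int.emod_add_mul_ediv p q
          linarith [mul_comm (p / q) q]
        rw [e2] at this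
        exact this
      rw [e]
      by_cases hs : 2 * (p % q) ≤ q
      · exact hred _ _ hq hm0 hs hN
      · rw [← h4 _ _ (by omega), ← h1 _ _ (by omega)]
        exact hred _ _ hq (by omega) (by omega) hN
    have hpos2 : ∀ p q : ℤ, 0 < q → q.natAbs ≤ N + 1 → K p q = κ := by
      intro p q hq hN
      by_cases hp : 0 ≤ p
      · exact hpos p q hq hp hN
      · rw [← h4 _ _ (by omega)]
        exact hpos _ q hq (by omega) hN
    intro p q hN hpq
    rcases lt_trichotomy q 0 with hq | hq | hq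
    · rw [← hneg p q hpq]
      exact hpos2 _ _ (by omega) (by omega)
    · exact ih p q (by omega) hpq
    · exact hpos2 p q hq hN

private theorem const_of (K : ℤ → ℤ → ℂ) (hS : Sym3 0 2 K)
    (hW : EqC (act 0 (-1) 9 0 K) (-K)) (hst : EqC (act (-1) 0 0 1 K) K)
    (h0 : K 1 0 = K 0 1) : EqC K 0 := by
  have h1 : ∀ p q : ℤ, (p ≠ 0 ∨ q ≠ 0) → K (p + q) q = K p q := by
    intro p q hpq
    obtain ⟨c, hc⟩ := hS.2 1 1 0 1 (by norm_num) (by norm_num) (by norm_num)
    have e1 := hc 1 0 (Or.inl one_ne_zero)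
    have e2 := hc p q hpq
    simp only [act] at e1 e2
    norm_num at e1 e2
    rw [e2, e1, add_zero]
  have h2 : ∀ p q : ℤ, (p ≠ 0 ∨ q ≠ 0) → K p (9 * p + q) = K p q := by
    intro p q hpq
    obtain ⟨c, hc⟩ := hS.2 1 0 9 1 (by norm_num) (by norm_num) (by norm_num)
    have e1 := hc 0 1 (Or.inr one_ne_zero)
    have e2 := hc p q hpq
    simp only [act] at e1 e2
    norm_num at e1 e2
    rw [e2, e1, add_zero]
  have h3 : ∀ p q : ℤ, (p ≠ 0 ∨ q ≠ 0) → K (-2 * p + q) (-9 * p + 4 * q) = K p q := by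
    intro p q hpq
    obtain ⟨c, hc⟩ := hS.2 (-2) 1 (-9) 4 (by norm_num) (by norm_num) (by norm_num)
    have e1 := hc 1 3 (Or.inl one_ne_zero)
    have e2 := hc p q hpq
    simp only [act, one_mul] at e1 e2
    norm_num at e1
    rw [e2, e1, add_zero]
  have h4 : ∀ p q : ℤ, (p ≠ 0 ∨ q ≠ 0) → K (-p) q = K p q := by
    intro p q hpq
    obtain ⟨c, hc⟩ := hst
    have e1 := hc 1 0 (Or.inl one_ne_zero)
    have e2 := hc p q hpq
    simp only [act] at e1 e2
    have e3 := hS.1 (-1) 1 0 (by norm_num) (Or.inl one_ne_zero)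
    norm_num at e1 e2 e3
    rw [e3] at e1
    have hc0 : c = 0 := by linear_combination -e1
    rw [e2, hc0, add_zero]
  obtain ⟨c, hc⟩ := hW
  have k3 : K 1 3 = K 1 0 := by
    have e1 := hc 1 0 (Or.inl one_ne_zero)
    have e2 := hc 1 3 (Or.inl one_ne_zero)
    simp only [act, Pi.neg_apply] at e1 e2
    norm_num at e1 e2
    have e3 := hS.1 9 0 1 (by norm_num) (Or.inr one_ne_zero)
    have e4 := hS.1 3 (-1) 3 (by norm_num) (Or.inl (by norm_num))
    have e5 := h4 1 3 (Or.inl one_ne_zero)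
    norm_num at e3 e4 e5
    have e7 : K 1 3 = -K 1 3 + c := by
      rw [← e2, e4, e5]
    have e8 : K 1 0 = -K 1 0 + c := by
      rw [← e1, e3, h0]
    have e9 : (2 : ℂ) * K 1 3 = 2 * K 1 0 := by
      linear_combination e7 - e8
    exact mul_left_cancel₀ two_ne_zero e9
  refine ⟨K 1 0, fun p q hpq => ?_⟩
  rw [descent K (K 1 0) hS.1 h1 h2 h3 h4 rfl h0.symm k3 _ p q le_rfl hpq]
  simp

private theorem vanish (hNrm : S3Nrm) (hEv : S3Ev) (G : ℤ → ℤ → ℂ) (hG : Sym3 0 2 G)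
    (h0 : ev3 1 G 0 0 = 0) : ∀ i j : ℕ, ev3 1 G i j = 0 := by
  have hn := (hNrm 2 G le_rfl hG).1
  have hev := fun i j => (hEv 2 G le_rfl hG i j).1
  norm_num at hn hev
  obtain ⟨H, hH⟩ : ∃ H : ℤ → ℤ → ℂ, H = G - act 0 (-1) 9 0 G := ⟨_, rfl⟩
  have hHev : ∀ i j : ℕ, ev3 1 H i j = 2 * ev3 1 G i j := by
    intro i j
    rw [hH, sub_eq_add_neg, ev3_add, ev3_neg, hev i j]
    ring
  have hHS : Sym3 0 2 H := by
    rw [hH]
    exact hG.sub hn
  have hWW : EqC (act 0 (-1) 9 0 (act 0 (-1) 9 0 G)) G := by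
    rw [act_act]
    have := hG.1.scale (a := 1) (b := 0) (c := 0) (d := 1) (-9) (by norm_num) (by norm_num)
    rw [act_one] at this
    norm_num at this ⊢
    exact this
  have hHW : EqC (act 0 (-1) 9 0 H) (-H) := by
    rw [hH, act_sub, neg_sub]
    exact (EqC.refl _).sub hWW
  have hHst := (hNrm 2 H le_rfl hHS).2.2.2.2.2
  have hHevst := fun i j => (hEv 2 H le_rfl hHS i j).2
  obtain ⟨E, hE⟩ : ∃ E : ℤ → ℤ → ℂ, E = H + act (-1) 0 0 1 H := ⟨_, rfl⟩
  have hEev : ∀ i j : ℕ, ev3 1 E i j = 4 * ev3 1 G i j := by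
    intro i j
    rw [hE, ev3_add, hHevst i j, hHev i j]
    ring
  have hES : Sym3 0 2 E := by
    rw [hE]
    exact hHS.add hHst
  have hEst : EqC (act (-1) 0 0 1 E) E := by
    refine EqC.of_eq fun p q _ => ?_
    rw [hE]
    simp only [act, Pi.add_apply]
    ring_nf
  have hEW : EqC (act 0 (-1) 9 0 E) (-E) := by
    have a1 : act 0 (-1) 9 0 E = act 0 (-1) 9 0 H + act 0 (-1) 9 0 (act (-1) 0 0 1 H) := by
      rw [hE]; rfl
    have a2 : EqC (act 0 (-1) 9 0 (act (-1) 0 0 1 H)) (act (-1) 0 0 1 (act 0 (-1) 9 0 H)) := by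
      refine EqC.of_eq fun p q hpq => ?_
      simp only [act]
      have := hHS.1 (-1) q (9 * p) (by norm_num) (by omega)
      norm_num at this ⊢
      exact this.symm
    have a3 : EqC (act (-1) 0 0 1 (act 0 (-1) 9 0 H)) (act (-1) 0 0 1 (-H)) :=
      hHW.act (by norm_num)
    have a4 : -E = -H + act (-1) 0 0 1 (-H) := by
      rw [hE, neg_add]; rfl
    rw [a1, a4]
    exact hHW.add (a2.trans a3)
  have hd : E 1 0 = E 0 1 := by
    have := hEev 0 0
    rw [h0, mul_zero] at this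
    exact sub_eq_zero.mp this
  have hc := const_of E hES hEW hEst hd
  intro i j
  have h1 := ev3_congr 1 hc i j
  have h2 : ev3 1 (0 : ℤ → ℤ → ℂ) i j = 0 := by
    have := ev3_smul (0 : ℂ) 1 (0 : ℤ → ℤ → ℂ) i j
    rw [zero_smul, zero_smul] at this
    exact this
  rw [hEev, h2] at h1
  exact (mul_eq_zero.mp h1).resolve_left (by norm_num)

theorem hB3b (hFar : StFar) (hNrm : S3Nrm) (hEv : S3Ev) : S3B3b := by
  have _ := hFar
  by_cases h : ∃ G0 : ℤ → ℤ → ℂ, Sym3 0 2 G0 ∧ ev3 1 G0 0 0 ≠ 0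
  · obtain ⟨G0, hG0, hne⟩ := h
    refine ⟨fun i j => ev3 1 G0 i j / ev3 1 G0 0 0, fun G hG => ⟨ev3 1 G 0 0, fun i j => ?_⟩⟩
    have hev : ∀ i j : ℕ, ev3 1 (ev3 1 G 0 0 • G0 + -(ev3 1 G0 0 0 • G)) i j =
        ev3 1 G 0 0 * ev3 1 G0 i j - ev3 1 G0 0 0 * ev3 1 G i j := by
      intro i j
      rw [ev3_add, ev3_neg, ev3_smul, ev3_smul, smul_eq_mul, smul_eq_mul, sub_eq_add_neg]
    have h0 := vanish hNrm hEv (ev3 1 G 0 0 • G0 + -(ev3 1 G0 0 0 • G))
      ((hG0.smul _).add (hG.smul _).neg) (by rw [hev]; ring) i j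
    rw [hev] at h0
    field_simp
    linear_combination -h0
  · push Not at h
    exact ⟨0, fun G hG => ⟨0, fun i j => by
      rw [vanish hNrm hEv G hG (h G hG) i j, zero_mul]⟩⟩

end Pool.Agent.Helper90.W3
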